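import Mathlib
import Pool.Agent.N774.Stolz.Tr

/-!
# The index map of Stolz for proper actions is not injective

Let `Γ` be a finite group with a nontrivial character `χ : Γ → {1, -1}`, for instance the group of
order two. Then `KO_0(C*_r(Γ; ℝ)) = K_0(ℝ[Γ])`, and the universal proper `Γ`-space is a point (any model
of it has a fixed point). The theorem says that the index map
`Θ : R_0^spin(X)^Γ[𝔅⁻¹] → KO_0(C*_r(Γ; ℝ))` is not injective, so that it is not an isomorphism.

Consider the following closed spin manifolds of dimension `0` with an action of `Γ`: `A` is the set
`Γ / ker χ`, and `B` consists of two points fixed by `Γ`, where `Γ` acts on the spin structure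
trivially over the first point, and through `χ` over the second point. The index of a closed manifold
of dimension `0` is the module of its spinors, which is `ℝ[Γ / ker χ] = 1 + χ` in both cases. But the
classes of `A` and `B` in `R_0^spin(X)^Γ[𝔅⁻¹]` are different: the part of a `Γ`-manifold on which `Γ`
acts trivially is a union of components, and it cannot interact with the rest, neither in a
bordism nor in the product with `𝔅`. In the proof this is used in the following form. If one replaces
the action of `Γ` on the spin structure by the trivial one over this part, and changes nothing
else, then one gets a well defined map of `R_n^spin(X)^Γ[𝔅⁻¹]` to itself. It fixes the class of `A`, and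
maps the class of `B` to that of two points with the trivial action, whose index is `2 ≠ 1 + χ`. The
only geometric input is that a map of finite order which fixes a point and the tangent vectors at
this point is the identity near this point; for the boundary `∂ W = M` one uses that the outward
pointing vectors can be chosen equivariantly.

The set `R_n^spin(X)^Γ[𝔅⁻¹]` is defined in `Pool.Agent.N774.Stolz.Defs`, for all groups `Γ`, all
`Γ`-spaces `X` and all `n`: `Triple` are the triples `(L, f, h)`, `Bordant` is the relation given by the
conditions (a) and (b), `IsProduct` the product with `𝔅`, and `RLim` is the direct limit. The only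
property of `Θ` which is used is its value on the closed manifolds of dimension `0`, that is on the finite
sets with an action of `Γ` and signs which describe the action on the spin structure. For the
relative index of the spin Dirac operator this holds by definition: the Dirac operator of a closed
manifold of dimension `0` is zero, and its index is the module of all spinors.
-/

set_option autoImplicit false

namespace Pool.Agent.Results.MP_8db816_gt.NotInjective

open Pool.Agent.N774.Stolz

/-- Let `Γ` be a finite group with a nontrivial character with values `1` and `-1`, let `X` be a
`Γ`-space with a fixed point (for instance any model of the universal proper `Γ`-space), let `𝔅` be a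
closed, simply connected, scalar flat spin manifold of dimension `8` (for instance a Bott manifold), and
let `Θ : R_0^spin(X)^Γ[𝔅⁻¹] → K_0(ℝ[Γ]) = KO_0(C*_r(Γ; ℝ))` be a map which has the same values as the
relative higher index on the classes of the closed spin manifolds `L` of dimension `0`: the value is
`[V] - [W]`, where `V` and `W` are the modules of the real spinors over the positively oriented and over
the negatively oriented points of `L`. Then `Θ` is not injective. -/
theorem result (Γ : Type) [Group Γ] [Finite Γ] (χ : Γ →* ℤˣ) (hχ : χ ≠ 1) (B : Factor)
    (X : Type) [TopologicalSpace X] [MulAction Γ X] (x₀ : X) (hx₀ : ∀ g : Γ, g • x₀ = x₀)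
    (Θ : RLim Γ X B 0 → K0 (MonoidAlgebra ℝ Γ))
    (hΘ : ∀ (L : Triple Γ X 0) (V W : FGP (MonoidAlgebra ℝ Γ)) (j : V.mdl → L.P → ℝ)
      (k : W.mdl → L.P → ℝ), IsSpinors L.toSpinMfd id V j →
      IsSpinors L.toSpinMfd (starRingEnd ℂ) W k → Θ (L.cls B) = K0.mk V - K0.mk W) :
    ¬ Function.Injective Θ := fun hinj =>
  (main hχ B X x₀ hx₀ Θ hΘ).2 (hinj (main hχ B X x₀ hx₀ Θ hΘ).1)

end Pool.Agent.Results.MP_8db816_gt.NotInjective
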